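import Mathlib
import Pool.Agent.MP_160dec_gt.Defs

section

/-! Combinatorial set theory: pigeonhole, Delta-system lemma, recursion of length omega one. -/

namespace Pool.Agent.MP_160dec_gt

open Set

theorem exists_uncountable_fiber {ι β : Type*} [Countable β] {S : Set ι} (hS : ¬ S.Countable)
    (P : β → ι → Prop) (h : ∀ i ∈ S, ∃ b, P b i) : ∃ b, ¬ {i | i ∈ S ∧ P b i}.Countable := by
  by_contra hc
  push Not at hc
  apply hS
  refine (countable_iUnion hc).mono ?_
  intro i hi
  obtain ⟨b, hb⟩ := h i hi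
  exact mem_iUnion.2 ⟨b, hi, hb⟩

theorem delta_system_card {ι α : Type*} [DecidableEq α] (n : ℕ) :
    ∀ (S : Set ι) (_ : ¬ S.Countable) (B : ι → Finset α) (_ : ∀ i ∈ S, (B i).card = n),
      ∃ S' ⊆ S, ¬ S'.Countable ∧ ∃ R : Finset α, (∀ i ∈ S', R ⊆ B i) ∧
        S'.Pairwise (fun i j => Disjoint (B i \ R) (B j \ R)) := by
  induction n with
  | zero =>
    intro S hS B hB
    refine ⟨S, subset_rfl, hS, ∅, fun i _ => Finset.empty_subset _, ?_⟩
    intro i hi j _ _
    have : B i = ∅ := Finset.card_eq_zero.1 (hB i hi)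
    simp [this]
  | succ n ih =>
    intro S hS B hB
    by_cases h : ∃ a, ¬ {i | i ∈ S ∧ a ∈ B i}.Countable
    · obtain ⟨a, ha⟩ := h
      obtain ⟨S', hS'sub, hS', R, hR, hP⟩ := ih _ ha (fun i => (B i).erase a) (by
        intro i hi
        rw [Finset.card_erase_of_mem hi.2, hB i hi.1]
        simp)
      refine ⟨S', fun i hi => (hS'sub hi).1, hS', insert a R, ?_, ?_⟩
      · intro i hi
        exact Finset.insert_subset (hS'sub hi).2 ((hR i hi).trans (Finset.erase_subset _ _))
      · intro i hi j hj hij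
        have := hP hi hj hij
        have e : ∀ k, B k \ insert a R = (B k).erase a \ R := by
          intro k
          ext x
          simp only [Finset.mem_sdiff, Finset.mem_insert, Finset.mem_erase]
          tauto
        rw [e, e]
        exact this
    · push Not at h
      obtain ⟨M, hM⟩ := zorn_subset
        {M : Set ι | M ⊆ S ∧ M.Pairwise (fun i j => Disjoint (B i) (B j))} (by
          intro c hc hchain
          refine ⟨⋃₀ c, ⟨sUnion_subset fun t ht => (hc ht).1, ?_⟩, fun s hs => subset_sUnion_of_mem hs⟩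
          intro i hi j hj hij
          obtain ⟨s, hs, his⟩ := hi
          obtain ⟨t, ht, hjt⟩ := hj
          rcases hchain.total hs ht with hst | hts
          · exact (hc ht).2 (hst his) hjt hij
          · exact (hc hs).2 his (hts hjt) hij)
      refine ⟨M, hM.prop.1, ?_, ∅, fun i _ => Finset.empty_subset _, ?_⟩
      · intro hMc
        apply hS
        have hU : (⋃ i ∈ M, ⋃ a ∈ (B i : Set α), {j | j ∈ S ∧ a ∈ B j}).Countable :=
          hMc.biUnion fun i _ => (B i).countable_toSet.biUnion fun a _ => h a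
        refine (hMc.union hU).mono ?_
        intro j hj
        by_contra hcon
        simp only [mem_union, mem_iUnion, not_or, not_exists, mem_setOf_eq, not_and,
          Finset.mem_coe] at hcon
        obtain ⟨hjM, hcon⟩ := hcon
        have hins : insert j M ∈
            {M : Set ι | M ⊆ S ∧ M.Pairwise (fun i j => Disjoint (B i) (B j))} := by
          refine ⟨insert_subset hj hM.prop.1, ?_⟩
          refine hM.prop.2.insert_of_symm ?_
          intro i hi _
          rw [Finset.disjoint_left]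
          intro a haj hai
          exact hcon i hi a hai hj haj
        exact hjM (hM.le_of_ge hins (subset_insert _ _) (mem_insert _ _))
      · intro i hi j hj hij
        simpa using hM.prop.2 hi hj hij

/-- The Delta-system lemma for an uncountable indexed family of finite sets. -/
theorem delta_system {ι α : Type*} [DecidableEq α] {S : Set ι} (hS : ¬ S.Countable)
    (B : ι → Finset α) :
    ∃ S' ⊆ S, ¬ S'.Countable ∧ ∃ R : Finset α, (∀ i ∈ S', R ⊆ B i) ∧
      S'.Pairwise (fun i j => Disjoint (B i \ R) (B j \ R)) := by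
  obtain ⟨n, hn⟩ := exists_uncountable_fiber hS (fun (n : ℕ) i => (B i).card = n)
    (fun i _ => ⟨_, rfl⟩)
  obtain ⟨S', h1, h2, h3⟩ := delta_system_card n _ hn B (fun i hi => hi.2)
  exact ⟨S', fun i hi => (h1 hi).1, h2, h3⟩

/-- The first uncountable ordinal as a type. -/
abbrev Om : Type := (Cardinal.ord (Cardinal.aleph 1)).ToType

theorem Om.countable_Iio (a : Om) : (Iio a).Countable := by
  rw [Cardinal.countable_iff_lt_aleph_one]
  exact Cardinal.mk_Iio_toType_ord_lt a

theorem Om.countable_Iic (a : Om) : (Iic a).Countable := by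
  rw [← Iio_insert]
  exact (Om.countable_Iio a).insert a

theorem Om.mk : Cardinal.mk Om = Cardinal.aleph 1 := Cardinal.mk_ord_toType _

theorem Om.uncountable_univ : ¬ (univ : Set Om).Countable := by
  rw [Cardinal.countable_iff_lt_aleph_one, Cardinal.mk_univ, Om.mk]
  exact lt_irrefl _

instance : Infinite Om := by
  rw [Cardinal.infinite_iff, Om.mk]
  exact Cardinal.aleph0_le_aleph 1

/-- Dependent choice of length omega one. -/
theorem exists_omega_seq {S : Type*} (R : Om → Set S → S → Prop)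
    (h : ∀ a (D : Set S), D.Countable → ∃ s, R a D s) :
    ∃ g : Om → S, ∀ a, R a (g '' Iio a) (g a) := by
  classical
  have hc : ∀ (a : Om) (prev : ∀ b, b < a → S),
      (range fun b : Iio a => prev b.1 b.2).Countable := by
    intro a prev
    have := (Om.countable_Iio a).to_subtype
    exact countable_range _
  let G : ∀ a : Om, (∀ b, b < a → S) → S := fun a prev =>
    Classical.choose (h a _ (hc a prev))
  let g : Om → S := (wellFounded_lt (α := Om)).fix G
  refine ⟨g, fun a => ?_⟩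
  have e : g a = G a (fun b _ => g b) := (wellFounded_lt (α := Om)).fix_eq G a
  have e2 : g '' Iio a = range fun b : Iio a => g b.1 := by
    rw [image_eq_range]
  rw [e2, e]
  exact Classical.choose_spec (h a _ (hc a fun b _ => g b))

/-- Given omega one many requirements, each of which can be met by a countable set avoiding any
prescribed countable set, some uncountable subset of `T` avoids a witness of each requirement. -/
theorem exists_uncountable_avoiding {W : Type*} {T : Set W} (hT : ¬ T.Countable)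
    (P : Om → Set W → Prop)
    (h : ∀ a (C : Set W), C.Countable → ∃ F : Set W, F.Countable ∧ Disjoint F C ∧ P a F) :
    ∃ A ⊆ T, ¬ A.Countable ∧ ∀ a, ∃ F, P a F ∧ Disjoint F A := by
  classical
  obtain ⟨g, hg⟩ := exists_omega_seq (S := {p : W × Set W // p.2.Countable})
    (fun a D s => s.1.1 ∈ T ∧ s.1.1 ∉ s.1.2 ∧ P a s.1.2 ∧
      ∀ d ∈ D, s.1.1 ≠ d.1.1 ∧ s.1.1 ∉ d.1.2 ∧ d.1.1 ∉ s.1.2) (by
      intro a D hD
      have hC : (⋃ d ∈ D, insert d.1.1 d.1.2).Countable :=
        hD.biUnion fun d _ => d.2.insert _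
      obtain ⟨b, hbT, hb⟩ : ∃ b ∈ T, b ∉ ⋃ d ∈ D, insert d.1.1 d.1.2 := by
        by_contra hcon
        push Not at hcon
        exact hT (hC.mono hcon)
      obtain ⟨F, hF, hdis, hP⟩ := h a _ (hC.insert b)
      rw [disjoint_left] at hdis
      refine ⟨⟨(b, F), hF⟩, hbT, fun hbF => hdis hbF (mem_insert _ _), hP, ?_⟩
      intro d hd
      have hsub : insert d.1.1 d.1.2 ⊆ ⋃ d ∈ D, insert d.1.1 d.1.2 :=
        subset_biUnion_of_mem (u := fun d : {p : W × Set W // p.2.Countable} =>
          insert d.1.1 d.1.2) hd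
      refine ⟨?_, ?_, ?_⟩
      · intro e
        exact hb (hsub (by rw [← e]; exact mem_insert _ _))
      · intro e
        exact hb (hsub (mem_insert_of_mem _ e))
      · intro e
        exact hdis e (mem_insert_of_mem _ (hsub (mem_insert _ _))))
  refine ⟨range fun a => (g a).1.1, ?_, ?_, ?_⟩
  · rintro _ ⟨a, rfl⟩
    exact (hg a).1
  · intro hc
    apply Om.uncountable_univ
    have hinj : Function.Injective fun a => (g a).1.1 := by
      intro a b hab
      by_contra hne
      rcases lt_or_gt_of_ne hne with hlt | hlt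
      · exact ((hg b).2.2.2 (g a) ⟨a, hlt, rfl⟩).1 hab.symm
      · exact ((hg a).2.2.2 (g b) ⟨b, hlt, rfl⟩).1 hab
    rw [← image_univ] at hc
    exact countable_of_injective_of_countable_image hinj.injOn hc
  · intro a
    refine ⟨(g a).1.2, (hg a).2.2.1, ?_⟩
    rw [disjoint_left]
    rintro _ hx ⟨b, rfl⟩
    rcases lt_trichotomy a b with hlt | rfl | hlt
    · exact ((hg b).2.2.2 (g a) ⟨a, hlt, rfl⟩).2.1 hx
    · exact (hg a).2.1 hx
    · exact ((hg a).2.2.2 (g b) ⟨b, hlt, rfl⟩).2.2 hx

/-- A type of size at most aleph one is a quotient of `Om`. -/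
theorem exists_surj_finset :
    ∀ (J : Type) [Countable J] [Nonempty J], ∃ s : Om → J × Finset (Om × ℕ),
      Function.Surjective s := by
  intro J _ _
  have h1 : Cardinal.mk (J × Finset (Om × ℕ)) ≤ Cardinal.mk Om := by
    have hJ : Cardinal.mk J ≤ Cardinal.aleph 1 :=
      (Cardinal.mk_le_aleph0).trans (Cardinal.aleph0_le_aleph 1)
    simp only [Cardinal.mk_prod, Cardinal.lift_id, Cardinal.mk_finset_of_infinite, Om.mk,
      Cardinal.mk_nat]
    have e : Cardinal.aleph 1 * Cardinal.aleph0 = Cardinal.aleph.{0} 1 :=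
      Cardinal.mul_eq_left (Cardinal.aleph0_le_aleph 1) (Cardinal.aleph0_le_aleph 1)
        Cardinal.aleph0_ne_zero
    rw [e]
    calc Cardinal.mk J * Cardinal.aleph 1 ≤ Cardinal.aleph 1 * Cardinal.aleph 1 := by gcongr
      _ = Cardinal.aleph 1 := Cardinal.mul_eq_self (Cardinal.aleph0_le_aleph 1)
  obtain ⟨e⟩ := (Cardinal.le_def _ _).1 h1
  exact ⟨Function.invFun e, Function.invFun_surjective e.injective⟩

end Pool.Agent.MP_160dec_gt

end

section

/-! Countable tightness of compact spaces, of their powers, and the splitting lemma. -/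

namespace Pool.Agent.MP_160dec_gt

open Set Topology Filter

/-- Countable tightness: a set containing the closures of its countable subsets is closed. -/
def CTight (Z : Type*) [TopologicalSpace Z] : Prop :=
  ∀ A : Set Z, (∀ D ⊆ A, D.Countable → closure D ⊆ A) → IsClosed A

theorem CTight.of_closed_surj {Z W : Type*} [TopologicalSpace Z] [TopologicalSpace W]
    (hZ : CTight Z) {f : Z → W} (hf : Continuous f) (hc : IsClosedMap f)
    (hs : Function.Surjective f) : CTight W := by
  intro A hA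
  have : IsClosed (f ⁻¹' A) := by
    apply hZ
    intro D hD hDc x hx
    have h1 : f x ∈ closure (f '' D) := image_closure_subset_closure_image hf ⟨x, hx, rfl⟩
    exact hA _ (image_subset_iff.2 hD) (hDc.image f) h1
  have h2 := hc _ this
  rwa [image_preimage_eq _ hs] at h2

theorem CTight.prod {X Y : Type*} [TopologicalSpace X] [TopologicalSpace Y] [CompactSpace X]
    [T2Space X] (hX : CTight X) (hY : CTight Y) : CTight (X × Y) := by
  intro A hA
  rw [← closure_subset_iff_isClosed]
  rintro ⟨x, y⟩ hxy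
  have key : ∀ U : Set X, U ∈ 𝓝 x → IsClosed U → ∃ x' ∈ U, (x', y) ∈ A := by
    intro U hU hUc
    have hcl : IsClosed (Prod.snd '' (A ∩ U ×ˢ univ)) := by
      apply hY
      intro D hD hDc
      have : ∀ d : D, ∃ p ∈ A ∩ U ×ˢ univ, p.2 = d.1 := fun d => hD d.2
      choose p hp hp2 using this
      have := hDc.to_subtype
      have hD' : (range p).Countable := countable_range p
      have hsub : range p ⊆ A ∩ U ×ˢ univ := range_subset_iff.2 hp
      have h1 : closure (range p) ⊆ A ∩ U ×ˢ univ := by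
        refine subset_inter (hA _ (hsub.trans inter_subset_left) hD') ?_
        exact closure_minimal (hsub.trans inter_subset_right) (hUc.prod isClosed_univ)
      have h2 : D ⊆ Prod.snd '' range p := by
        intro d hd
        exact ⟨p ⟨d, hd⟩, mem_range_self _, hp2 _⟩
      calc closure D ⊆ closure (Prod.snd '' range p) := closure_mono h2
        _ ⊆ Prod.snd '' closure (range p) :=
            isClosedMap_snd_of_compactSpace.closure_image_subset _
        _ ⊆ _ := image_mono h1
    have h3 : (x, y) ∈ closure (A ∩ U ×ˢ univ) := by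
      rw [mem_closure_iff_nhds] at hxy ⊢
      intro t ht
      have : t ∩ U ×ˢ univ ∈ 𝓝 (x, y) := inter_mem ht (prod_mem_nhds hU univ_mem)
      obtain ⟨q, hq1, hq2⟩ := hxy _ this
      exact ⟨q, hq1.1, hq2, hq1.2⟩
    have h4 : y ∈ closure (Prod.snd '' (A ∩ U ×ˢ univ)) :=
      image_closure_subset_closure_image continuous_snd ⟨(x, y), h3, rfl⟩
    rw [hcl.closure_eq] at h4
    obtain ⟨⟨x', y'⟩, ⟨h5, h6, -⟩, rfl⟩ := h4
    exact ⟨x', h6, h5⟩
  have hcl : IsClosed {x' | (x', y) ∈ A} := by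
    apply hX
    intro D hD hDc z hz
    have hc : Continuous fun x' : X => (x', y) := by fun_prop
    have h1 : (z, y) ∈ closure ((fun x' : X => (x', y)) '' D) :=
      image_closure_subset_closure_image hc ⟨z, hz, rfl⟩
    exact hA _ (image_subset_iff.2 hD) (hDc.image _) h1
  have : x ∈ closure {x' | (x', y) ∈ A} := by
    rw [mem_closure_iff_nhds_basis (closed_nhds_basis x)]
    intro U hU
    obtain ⟨x', h1, h2⟩ := key U hU.1 hU.2
    exact ⟨x', h2, h1⟩
  rwa [hcl.closure_eq] at this

theorem CTight.pow {X : Type*} [TopologicalSpace X] [CompactSpace X] [T2Space X]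
    (hX : CTight X) (n : ℕ) : CTight (Fin n → X) := by
  induction n with
  | zero =>
    intro A _
    exact (toFinite A).isClosed
  | succ n ih =>
    have hc : Continuous fun p : X × (Fin n → X) => (Fin.cons p.1 p.2 : Fin (n + 1) → X) :=
      Continuous.finCons (A := fun _ : Fin (n + 1) => X) continuous_fst continuous_snd
    refine (hX.prod ih).of_closed_surj hc hc.isClosedMap ?_
    intro z
    exact ⟨(z 0, Fin.tail z), Fin.cons_self_tail z⟩

theorem exists_mem_iInter_of_closure {X : Type*} [TopologicalSpace X] [CompactSpace X]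
    {A : Set X} (hA : ∀ D ⊆ A, D.Countable → closure D ⊆ A) {p : X} (hp : p ∈ closure A)
    (H : ℕ → Set X) (hH : ∀ n, IsClosed (H n)) (hH' : ∀ n, H n ∈ 𝓝 p) :
    ∃ x ∈ A, ∀ n, x ∈ H n := by
  have h1 : ∀ n : ℕ, ∃ a ∈ A, ∀ k ≤ n, a ∈ H k := by
    intro n
    have : (⋂ k ∈ Iic n, H k) ∈ 𝓝 p := (biInter_mem (finite_Iic n)).2 fun k _ => hH' k
    obtain ⟨a, ha1, ha2⟩ := mem_closure_iff_nhds.1 hp _ this
    exact ⟨a, ha2, fun k hk => mem_iInter₂.1 ha1 k hk⟩
  choose a ha ha' using h1
  have hK : ∀ n : ℕ, IsClosed (closure (range a) ∩ ⋂ k ∈ Iic n, H k) := fun n =>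
    isClosed_closure.inter (isClosed_biInter fun k _ => hH k)
  obtain ⟨x, hx⟩ := IsCompact.nonempty_iInter_of_sequence_nonempty_isCompact_isClosed
    (fun n : ℕ => closure (range a) ∩ ⋂ k ∈ Iic n, H k)
    (fun n => inter_subset_inter_right _
      (biInter_subset_biInter_left (Iic_subset_Iic.2 (Nat.le_succ n))))
    (fun n => ⟨a n, subset_closure (mem_range_self n), mem_iInter₂.2 fun k hk => ha' n k hk⟩)
    (hK 0).isCompact hK
  rw [mem_iInter] at hx
  exact ⟨x, hA _ (range_subset_iff.2 ha) (countable_range a) (hx 0).1,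
    fun n => mem_iInter₂.1 (hx n).2 n (mem_Iic.2 le_rfl)⟩

/-- A compact Hausdorff space of uncountable tightness has an uncountable discrete family. -/
theorem exists_discrete_of_not_cTight {X : Type*} [TopologicalSpace X] [CompactSpace X]
    [T2Space X] (h : ¬ CTight X) :
    ∃ (x : Om → X) (O : Om → Set X), ∀ a, IsOpen (O a) ∧ x a ∈ O a ∧ ∀ b, b ≠ a → x b ∉ O a := by
  unfold CTight at h
  push Not at h
  obtain ⟨A, hA, hncl⟩ := h
  rw [← closure_subset_iff_isClosed, not_subset] at hncl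
  obtain ⟨p, hp, hpA⟩ := hncl
  have sep : ∀ K : Set X, IsClosed K → K ⊆ A → ∃ H, IsClosed H ∧ H ∈ 𝓝 p ∧ Disjoint H K := by
    intro K hK hKA
    have : Kᶜ ∈ 𝓝 p := hK.isOpen_compl.mem_nhds fun h => hpA (hKA h)
    obtain ⟨H, ⟨h1, h2⟩, h3⟩ := (closed_nhds_basis p).mem_iff.1 this
    exact ⟨H, h2, h1, subset_compl_iff_disjoint_right.1 h3⟩
  obtain ⟨g, hg⟩ := exists_omega_seq
    (S := {q : X × Set X // q.1 ∈ A ∧ IsClosed q.2 ∧ q.2 ∈ 𝓝 p})
    (fun _ D s => s.1.1 ∉ closure ((fun d => d.1.1) '' D) ∧ (∀ d ∈ D, s.1.1 ∈ d.1.2) ∧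
      s.1.1 ∉ s.1.2) (by
      intro _ D hD
      have hsub : (fun d : {q : X × Set X // q.1 ∈ A ∧ IsClosed q.2 ∧ q.2 ∈ 𝓝 p} => d.1.1) '' D
          ⊆ A := by
        rintro _ ⟨d, -, rfl⟩
        exact d.2.1
      obtain ⟨H', h1, h2, h3⟩ := sep _ isClosed_closure (hA _ hsub (hD.image _))
      obtain ⟨f, hf⟩ := ((hD.image fun d => d.1.2).insert H').exists_eq_range
        (insert_nonempty _ _)
      have hf' : ∀ n, IsClosed (f n) ∧ f n ∈ 𝓝 p := by
        intro n
        have : f n ∈ range f := mem_range_self n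
        rw [← hf] at this
        rcases this with h | ⟨d, -, h⟩
        · rw [h]; exact ⟨h1, h2⟩
        · rw [← h]; exact d.2.2
      obtain ⟨x, hxA, hx⟩ := exists_mem_iInter_of_closure hA hp f (fun n => (hf' n).1)
        (fun n => (hf' n).2)
      have hx' : ∀ s ∈ range f, x ∈ s := by
        rintro _ ⟨n, rfl⟩
        exact hx n
      rw [← hf] at hx'
      obtain ⟨H, k1, k2, k3⟩ := sep {x} isClosed_singleton (singleton_subset_iff.2 hxA)
      refine ⟨⟨(x, H), hxA, k1, k2⟩, ?_, ?_, ?_⟩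
      · exact disjoint_left.1 h3 (hx' _ (mem_insert _ _))
      · intro d hd
        exact hx' _ (mem_insert_of_mem _ ⟨d, hd, rfl⟩)
      · exact disjoint_singleton_right.1 k3)
  refine ⟨fun a => (g a).1.1,
    fun a => (closure ((fun d => d.1.1) '' (g '' Iio a)))ᶜ ∩ ((g a).1.2)ᶜ, fun a => ⟨?_, ?_, ?_⟩⟩
  · exact isClosed_closure.isOpen_compl.inter (g a).2.2.1.isOpen_compl
  · exact ⟨(hg a).1, (hg a).2.2⟩
  · intro b hb hmem
    rcases lt_or_gt_of_ne hb with hlt | hlt
    · exact hmem.1 (subset_closure ⟨g b, ⟨b, hlt, rfl⟩, rfl⟩)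
    · exact hmem.2 ((hg b).2.1 (g a) ⟨a, hlt, rfl⟩)

/-- The splitting lemma. For countably many countably tight compact spaces `Z j` and continuous
functions `h j β`, some uncountable `A ⊆ T` contains no uncountable set of the form
`{β ∈ T | 0 < h j β z}`. -/
theorem exists_uncountable_no_trace {J : Type} [Countable J] [Nonempty J] (Z : J → Type*)
    [∀ j, TopologicalSpace (Z j)] [∀ j, CompactSpace (Z j)] (hZ : ∀ j, CTight (Z j))
    (h : ∀ j, Om → Z j → ℝ) (hc : ∀ j β, Continuous (h j β)) {T : Set Om}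
    (hT : ¬ T.Countable) :
    ∃ A ⊆ T, ¬ A.Countable ∧
      ∀ j z, {β | β ∈ T ∧ 0 < h j β z} ⊆ A → {β | β ∈ T ∧ 0 < h j β z}.Countable := by
  classical
  obtain ⟨s, hs⟩ := exists_surj_finset J
  let Sg : ∀ j, Set (Z j) := fun j => {z | {β | β ∈ T ∧ 0 < h j β z}.Countable}
  have hSg : ∀ j, IsClosed (Sg j) := by
    intro j
    apply hZ j
    intro D hD hDc z hz
    have hC : (⋃ d ∈ D, {β | β ∈ T ∧ 0 < h j β d}).Countable := hDc.biUnion fun d hd => hD hd
    refine hC.mono ?_
    rintro β ⟨hβT, hβ⟩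
    have ho : IsOpen {w | 0 < h j β w} := isOpen_lt continuous_const (hc j β)
    obtain ⟨d, hd1, hd2⟩ := mem_closure_iff.1 hz _ ho hβ
    exact mem_biUnion hd2 ⟨hβT, hd1⟩
  let V : ∀ j, Finset (Om × ℕ) → Set (Z j) := fun j G =>
    ⋂ q ∈ G, {z | 1 / ((q.2 : ℝ) + 1) ≤ h j q.1 z}
  have hV : ∀ j G, IsClosed (V j G) := fun j G =>
    isClosed_biInter fun q _ => isClosed_le continuous_const (hc j q.1)
  have cover : ∀ j z, z ∉ Sg j → ∃ G, z ∈ V j G ∧ Disjoint (V j G) (Sg j) := by
    intro j z hz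
    have h1 : ∀ w : Sg j, ∃ q : Om × ℕ, 1 / ((q.2 : ℝ) + 1) ≤ h j q.1 z ∧
        h j q.1 w.1 < 1 / ((q.2 : ℝ) + 1) := by
      intro w
      have : ¬ {β | β ∈ T ∧ 0 < h j β z} ⊆ {β | β ∈ T ∧ 0 < h j β w.1} :=
        fun hsub => hz (Set.Countable.mono hsub w.2)
      obtain ⟨β, ⟨hβT, hβ⟩, hβ'⟩ := not_subset.1 this
      obtain ⟨m, hm⟩ := exists_nat_one_div_lt hβ
      refine ⟨(β, m), hm.le, ?_⟩
      have h2 : h j β w.1 ≤ 0 := by
        by_contra hcon
        exact hβ' ⟨hβT, not_le.1 hcon⟩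
      exact h2.trans_lt Nat.one_div_pos_of_nat
    choose q hq1 hq2 using h1
    obtain ⟨t, ht⟩ := (hSg j).isCompact.elim_finite_subcover
      (fun w : Sg j => {y | h j (q w).1 y < 1 / (((q w).2 : ℝ) + 1)})
      (fun w => isOpen_lt (hc j _) continuous_const)
      (fun w hw => mem_iUnion.2 ⟨⟨w, hw⟩, hq2 ⟨w, hw⟩⟩)
    refine ⟨t.image q, ?_, ?_⟩
    · refine mem_iInter₂.2 fun r hr => ?_
      obtain ⟨w, -, rfl⟩ := Finset.mem_image.1 hr
      exact hq1 w
    · rw [disjoint_left]
      intro y hy hyS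
      obtain ⟨w, hw, hy'⟩ := mem_iUnion₂.1 (ht hyS)
      have h5 : 1 / (((q w).2 : ℝ) + 1) ≤ h j (q w).1 y :=
        mem_iInter₂.1 hy (q w) (Finset.mem_image_of_mem q hw)
      have h6 : h j (q w).1 y < 1 / (((q w).2 : ℝ) + 1) := hy'
      exact absurd h5 (not_le.2 h6)
  obtain ⟨A, hAT, hA, hP⟩ := exists_uncountable_avoiding hT
    (fun a F => Disjoint (V (s a).1 (s a).2) (Sg (s a).1) →
      ∀ z ∈ V (s a).1 (s a).2, ∃ β ∈ F, β ∈ T ∧ 0 < h (s a).1 β z) (by
      intro a C hC
      by_cases hd : Disjoint (V (s a).1 (s a).2) (Sg (s a).1)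
      · obtain ⟨t, ht⟩ := (hV (s a).1 (s a).2).isCompact.elim_finite_subcover
          (fun β : ↥(T \ C) => {y | 0 < h (s a).1 β.1 y})
          (fun β => isOpen_lt continuous_const (hc _ _)) (by
            intro z hz
            have hz' : z ∉ Sg (s a).1 := disjoint_left.1 hd hz
            have : ¬ {β | β ∈ T ∧ 0 < h (s a).1 β z} ⊆ C :=
              fun hsub => hz' (Set.Countable.mono hsub hC)
            obtain ⟨β, ⟨hβT, hβ⟩, hβ'⟩ := not_subset.1 this
            exact mem_iUnion.2 ⟨⟨β, hβT, hβ'⟩, hβ⟩)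
        refine ⟨Subtype.val '' (t : Set ↥(T \ C)), t.countable_toSet.image _, ?_, ?_⟩
        · rw [disjoint_left]
          rintro _ ⟨β, -, rfl⟩
          exact β.2.2
        · intro _ z hz
          obtain ⟨β, hβ, hz'⟩ := mem_iUnion₂.1 (ht hz)
          exact ⟨β.1, ⟨β, hβ, rfl⟩, β.2.1, hz'⟩
      · exact ⟨∅, countable_empty, empty_disjoint _, fun h' => absurd h' hd⟩)
  refine ⟨A, hAT, hA, ?_⟩
  intro j z hsub
  by_contra hz
  obtain ⟨G, hG1, hG2⟩ := cover j z hz
  obtain ⟨a, ha⟩ := hs (j, G)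
  obtain ⟨F, hF1, hF2⟩ := hP a
  rw [ha] at hF1
  obtain ⟨β, hβF, hβ⟩ := hF1 hG2 z hG1
  exact disjoint_left.1 hF2 hβF (hsub hβ)

end Pool.Agent.MP_160dec_gt

end

section

/-! The core argument: a countably tight compact space that is t-embedded in a power of the real
line is metrizable. -/

namespace Pool.Agent.MP_160dec_gt

open Set Topology Filter

theorem pi_nhds {κ : Type*} {p : κ → ℝ} {W : Set (κ → ℝ)} (hW : W ∈ 𝓝 p) :
    ∃ (B : Finset κ) (δ : ℝ), 0 < δ ∧ ∀ y : κ → ℝ, (∀ k ∈ B, |y k - p k| < δ) → y ∈ W := by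
  rw [nhds_pi, mem_pi'] at hW
  obtain ⟨I, t, ht, hsub⟩ := hW
  have h1 : ∀ᶠ r in 𝓝 (0 : ℝ), ∀ k ∈ I, Metric.closedBall (p k) r ⊆ t k :=
    (eventually_all_finset I).2 fun k _ => eventually_closedBall_subset (ht k)
  have h2 : ∀ᶠ r in 𝓝[>] (0 : ℝ), ∀ k ∈ I, Metric.closedBall (p k) r ⊆ t k :=
    h1.filter_mono nhdsWithin_le_nhds
  obtain ⟨δ, hδ, hδ0⟩ := (h2.and self_mem_nhdsWithin).exists
  refine ⟨I, δ, hδ0, fun y hy => hsub fun k hk => hδ k hk ?_⟩
  rw [Metric.mem_closedBall, Real.dist_eq]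
  exact (hy k hk).le

theorem cp_nhds {X : Type*} [TopologicalSpace X] {f : Cp X} {W : Set (Cp X)} (hW : W ∈ 𝓝 f) :
    ∃ (B : Finset X) (δ : ℝ), 0 < δ ∧ ∀ g : Cp X, (∀ x ∈ B, |g.1 x - f.1 x| < δ) → g ∈ W := by
  rw [nhds_subtype, mem_comap] at hW
  obtain ⟨V, hV, hsub⟩ := hW
  obtain ⟨B, δ, hδ, h⟩ := pi_nhds hV
  exact ⟨B, δ, hδ, fun g hg => hsub (h g.1 hg)⟩

theorem refine_delta {ι κ : Type*} [DecidableEq κ] {S : Set ι} (hS : ¬ S.Countable)
    (B : ι → Finset κ) (δ : ι → ℝ) (hδ : ∀ i ∈ S, 0 < δ i) (q : ι → κ → ℝ) :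
    ∃ T ⊆ S, ¬ T.Countable ∧ ∃ R : Finset κ, (∀ i ∈ T, R ⊆ B i) ∧
      T.Pairwise (fun i j => Disjoint (B i \ R) (B j \ R)) ∧
      ∃ (n : ℕ) (x : Fin n → κ) (k m : ℕ), (∀ a ∈ R, a ∈ range x) ∧ (∀ l, x l ∈ R) ∧
        ∀ i ∈ T, 2 * (1 / ((m : ℝ) + 1)) ≤ δ i ∧
          dist (fun l => q i (x l)) (TopologicalSpace.denseSeq (Fin n → ℝ) k) <
            1 / ((m : ℝ) + 1) := by
  obtain ⟨S', hS'S, hS', R, hR, hP⟩ := delta_system hS B
  let x : Fin R.card → κ := fun l => (R.equivFin.symm l).1
  obtain ⟨⟨k, m⟩, hkm⟩ := exists_uncountable_fiber hS' (fun (b : ℕ × ℕ) i =>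
    2 * (1 / ((b.2 : ℝ) + 1)) ≤ δ i ∧
      dist (fun l => q i (x l)) (TopologicalSpace.denseSeq (Fin R.card → ℝ) b.1) <
        1 / ((b.2 : ℝ) + 1)) (by
    intro i hi
    obtain ⟨m, hm⟩ := exists_nat_one_div_lt (half_pos (hδ i (hS'S hi)))
    obtain ⟨k, hk⟩ := (TopologicalSpace.denseRange_denseSeq (Fin R.card → ℝ)).exists_dist_lt
      (fun l => q i (x l)) (Nat.one_div_pos_of_nat (n := m))
    exact ⟨(k, m), by linarith, hk⟩)
  refine ⟨_, fun i hi => hS'S hi.1, hkm, R, fun i hi => hR i hi.1,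
    hP.mono fun i hi => hi.1, R.card, x, k, m, ?_, fun l => (R.equivFin.symm l).2,
    fun i hi => hi.2⟩
  intro a ha
  exact ⟨R.equivFin ⟨a, ha⟩, by simp [x]⟩

theorem close_on_root {κ : Type*} {n : ℕ} {x : Fin n → κ} {u v : κ → ℝ} {w : Fin n → ℝ}
    {ε : ℝ} (hu : dist (fun l => u (x l)) w < ε) (hv : dist (fun l => v (x l)) w < ε)
    {a : κ} (ha : a ∈ range x) : |u a - v a| < 2 * ε := by
  obtain ⟨l, rfl⟩ := ha
  have h1 := (dist_le_pi_dist (fun l => u (x l)) w l).trans_lt hu
  have h2 := (dist_le_pi_dist (fun l => v (x l)) w l).trans_lt hv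
  rw [Real.dist_eq] at h1 h2
  rw [abs_lt] at h1 h2 ⊢
  constructor <;> linarith [h1.1, h1.2, h2.1, h2.2]

theorem glue {ι κ : Type*} [DecidableEq κ] {T : Set ι} {B : ι → Finset κ} {R : Finset κ}
    (hP : T.Pairwise (fun i j => Disjoint (B i \ R) (B j \ R))) (r : κ → ℝ) (p : ι → κ → ℝ) :
    ∃ y : κ → ℝ, (∀ k ∈ R, y k = r k) ∧ ∀ i ∈ T, ∀ k ∈ B i \ R, y k = p i k := by
  classical
  refine ⟨fun k => if h : ∃ i ∈ T, k ∈ B i \ R then p h.choose k else r k, ?_, ?_⟩
  · intro k hk
    refine dif_neg ?_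
    rintro ⟨i, -, hi⟩
    exact (Finset.mem_sdiff.1 hi).2 hk
  · intro i hi k hk
    have h : ∃ i ∈ T, k ∈ B i \ R := ⟨i, hi, hk⟩
    simp only [dif_pos h]
    have : h.choose = i := by
      by_contra hne
      exact Finset.disjoint_left.1 (hP h.choose_spec.1 hi hne) h.choose_spec.2 hk
    rw [this]

theorem interp {X : Type*} [TopologicalSpace X] [CompactSpace X] [T2Space X] {G : Set X}
    (hG : G.Finite) (u : X → ℝ) : ∃ g : Cp X, ∀ x ∈ G, g.1 x = u x := by
  have := hG.to_subtype
  obtain ⟨g, hg⟩ := ContinuousMap.exists_restrict_eq (Y := ℝ) hG.isClosed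
    ⟨fun x : G => u x.1, continuous_of_discreteTopology⟩
  refine ⟨⟨g, g.continuous⟩, fun x hx => ?_⟩
  exact DFunLike.congr_fun hg ⟨x, hx⟩

theorem nonempty_of_not_countable {ι : Type*} {T : Set ι} (hT : ¬ T.Countable) : T.Nonempty := by
  by_contra h
  rw [not_nonempty_iff_eq_empty] at h
  exact hT (h ▸ countable_empty)

/-- Uncountably many nonempty open subsets of a power of the line: some point lies in
uncountably many of them. -/
theorem caliber {κ : Type*} (p : Om → κ → ℝ) (W : Om → Set (κ → ℝ)) (hW : ∀ a, W a ∈ 𝓝 (p a)) :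
    ∃ y, ¬ {a | y ∈ W a}.Countable := by
  classical
  choose B δ hδ hB using fun a => pi_nhds (hW a)
  obtain ⟨T, -, hT, R, -, hP, n, x, k, m, hx, -, hq⟩ :=
    refine_delta Om.uncountable_univ B δ (fun a _ => hδ a) p
  obtain ⟨a₀, ha₀⟩ := nonempty_of_not_countable hT
  obtain ⟨y, hy1, hy2⟩ := glue hP (p a₀) p
  refine ⟨y, fun hc => hT (hc.mono fun a ha => hB a y fun c hc => ?_)⟩
  by_cases hcR : c ∈ R
  · rw [hy1 c hcR]
    exact (close_on_root (hq a₀ ha₀).2 (hq a ha).2 (hx c hcR)).trans_le (hq a ha).1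
  · rw [hy2 a ha c (Finset.mem_sdiff.2 ⟨hc, hcR⟩)]
    simpa using hδ a

theorem continuous_eval_cp {X : Type*} [TopologicalSpace X] (x : X) :
    Continuous fun f : Cp X => f.1 x :=
  (continuous_apply x).comp continuous_subtype_val

/-- If every closed subspace is t-embedded in a power of the line, the compact space has
countable tightness. -/
theorem cTight_of_hereditary {X κ : Type*} [TopologicalSpace X] [CompactSpace X] [T2Space X]
    {e : X → κ → ℝ} (he : IsTEmbedded e) (hX : TExtendial X) : CTight X := by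
  classical
  by_contra hcon
  obtain ⟨x, O, hO⟩ := exists_discrete_of_not_cTight hcon
  obtain ⟨φ, hφ, hφe⟩ := he
  obtain ⟨ψ, hψ, hψe⟩ := hX (closure (range x)) isClosed_closure
  have hinj : Function.Injective x := by
    intro a b hab
    by_contra hne
    exact (hO b).2.2 a hne (hab ▸ (hO b).2.1)
  have hiso : ∀ a, ∀ z ∈ closure (range x), z ∈ O a → z = x a := by
    intro a z hz hzO
    have h1 : z ∈ closure (O a ∩ range x) := (hO a).1.inter_closure ⟨hzO, hz⟩
    have h2 : O a ∩ range x ⊆ {x a} := by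
      rintro _ ⟨h, b, rfl⟩
      by_cases hb : b = a
      · rw [hb]; rfl
      · exact absurd h ((hO a).2.2 b hb)
    have := closure_mono h2 h1
    rwa [closure_singleton] at this
  have hclopen : ∀ a, IsClopen {z : closure (range x) | z.1 = x a} := by
    intro a
    refine ⟨isClosed_eq continuous_subtype_val continuous_const, ?_⟩
    have : {z : closure (range x) | z.1 = x a} = Subtype.val ⁻¹' O a := by
      ext z
      constructor
      · intro hz
        have hz' : z.1 = x a := hz
        rw [mem_preimage, hz']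
        exact (hO a).2.1
      · intro hz
        exact hiso a z.1 z.2 hz
    rw [this]
    exact (hO a).1.preimage continuous_subtype_val
  let ind : Om → Cp (closure (range x)) := fun a =>
    ⟨{z : closure (range x) | z.1 = x a}.indicator fun _ => (1 : ℝ),
      (hclopen a).continuous_indicator continuous_const⟩
  let zero : Cp (closure (range x)) := ⟨fun _ => 0, continuous_const⟩
  have htend : Tendsto ind cofinite (𝓝 zero) := by
    rw [tendsto_subtype_rng, tendsto_pi_nhds]
    intro z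
    refine tendsto_const_nhds.congr' ?_
    have hfin : {a | z.1 = x a}.Finite := by
      apply Set.Subsingleton.finite
      intro a ha b hb
      exact hinj (ha.symm.trans hb)
    filter_upwards [hfin.compl_mem_cofinite] with a ha
    exact (indicator_of_notMem (s := {z : closure (range x) | z.1 = x a}) ha
      (fun _ => (1 : ℝ))).symm
  obtain ⟨y, hy⟩ := caliber (fun a => e (x a))
    (fun a => {y | 1 / 2 < (φ (ψ (ind a))).1 y - (φ (ψ zero)).1 y}) (by
      intro a
      refine (isOpen_lt continuous_const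
        ((φ (ψ (ind a))).2.sub (φ (ψ zero)).2)).mem_nhds ?_
      have hm : x a ∈ closure (range x) := subset_closure (mem_range_self a)
      have h1 := hψe (ind a) ⟨x a, hm⟩
      have h2 := hψe zero ⟨x a, hm⟩
      change 1 / 2 < (φ (ψ (ind a))).1 (e (x a)) - (φ (ψ zero)).1 (e (x a))
      simp only at h1 h2
      rw [hφe, hφe, h1, h2]
      simp only [ind, zero]
      rw [indicator_of_mem (by rfl)]
      norm_num)
  apply hy
  apply Set.Finite.countable
  have h1 : Tendsto (fun a => (φ (ψ (ind a))).1 y) cofinite (𝓝 ((φ (ψ zero)).1 y)) :=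
    (((continuous_eval_cp y).comp (hφ.comp hψ)).tendsto zero).comp htend
  have h2 : ∀ᶠ a in cofinite, (φ (ψ (ind a))).1 y < (φ (ψ zero)).1 y + 1 / 2 :=
    h1.eventually (gt_mem_nhds (by linarith))
  refine (eventually_cofinite.1 h2).subset fun a ha => ?_
  simp only [mem_ofPred_eq, not_lt] at ha ⊢
  linarith

/-- From non-metrizability: an uncountable family of functions every subfamily of which is
separated from its complement by a continuous function on `Cp X`. -/
theorem exists_separated_family {X κ : Type*} [TopologicalSpace X] [CompactSpace X] [T2Space X]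
    {e : X → κ → ℝ} (hec : Continuous e) (he : IsTEmbedded e)
    (hX : ¬ TopologicalSpace.MetrizableSpace X) :
    ∃ (f : Om → Cp X) (T : Set Om), ¬ T.Countable ∧ ∀ A : Set Om,
      ∃ Ψ : Cp X → ℝ, Continuous Ψ ∧ ∀ a ∈ T, (a ∈ A → 2 / 3 < Ψ (f a)) ∧
        (a ∉ A → Ψ (f a) < 1 / 3) := by
  classical
  obtain ⟨φ, hφ, hφe⟩ := he
  have hsep : ∀ D : Set κ, D.Countable → ∃ x y : X, x ≠ y ∧ ∀ k ∈ D, e x k = e y k := by
    intro D hD
    by_contra hcon
    push Not at hcon
    apply hX
    have := hD.to_subtype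
    have hc : Continuous fun (x : X) (k : D) => e x k.1 :=
      continuous_pi fun k => (continuous_apply k.1).comp hec
    have hi : Function.Injective fun (x : X) (k : D) => e x k.1 := by
      intro x y hxy
      by_contra hne
      obtain ⟨k, hk, hk'⟩ := hcon x y hne
      exact hk' (congrFun hxy ⟨k, hk⟩)
    exact (hc.isClosedEmbedding hi).isEmbedding.metrizableSpace
  obtain ⟨g, hg⟩ := exists_omega_seq (S := X × X × Cp X × Finset κ × ℝ)
    (fun _ D s => (∀ d ∈ D, ∀ k ∈ d.2.2.2.1, e s.1 k = e s.2.1 k) ∧ 0 < s.2.2.2.2 ∧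
      (∀ y : κ → ℝ, (∀ k ∈ s.2.2.2.1, |y k - e s.1 k| < s.2.2.2.2) → (φ s.2.2.1).1 y < 1 / 3) ∧
      (∀ y : κ → ℝ, (∀ k ∈ s.2.2.2.1, |y k - e s.2.1 k| < s.2.2.2.2) →
        2 / 3 < (φ s.2.2.1).1 y)) (by
      intro _ D hD
      obtain ⟨x, y, hxy, h⟩ := hsep (⋃ d ∈ D, (d.2.2.2.1 : Set κ))
        (hD.biUnion fun d _ => d.2.2.2.1.countable_toSet)
      obtain ⟨f, hf⟩ := interp (toFinite {x, y}) (fun z => if z = x then (0 : ℝ) else 1)
      have hfx : f.1 x = 0 := by rw [hf x (by simp)]; simp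
      have hfy : f.1 y = 1 := by rw [hf y (by simp)]; simp [hxy.symm]
      obtain ⟨B₁, δ₁, h₁, h₁'⟩ := pi_nhds (p := e x) (W := {z | (φ f).1 z < 1 / 3})
        ((isOpen_lt (φ f).2 continuous_const).mem_nhds (by
          simp only [mem_ofPred_eq, hφe, hfx]; norm_num))
      obtain ⟨B₂, δ₂, h₂, h₂'⟩ := pi_nhds (p := e y) (W := {z | 2 / 3 < (φ f).1 z})
        ((isOpen_lt continuous_const (φ f).2).mem_nhds (by
          simp only [mem_ofPred_eq, hφe, hfy]; norm_num))
      refine ⟨(x, y, f, B₁ ∪ B₂, min δ₁ δ₂), ?_, lt_min h₁ h₂, ?_, ?_⟩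
      · intro d hd k hk
        exact h k (mem_biUnion hd hk)
      · intro z hz
        exact h₁' z fun k hk => (hz k (Finset.mem_union_left _ hk)).trans_le (min_le_left _ _)
      · intro z hz
        exact h₂' z fun k hk => (hz k (Finset.mem_union_right _ hk)).trans_le (min_le_right _ _))
  obtain ⟨T, -, hT, R, hR, hP, n, x, k, m, hx, -, hq⟩ :=
    refine_delta Om.uncountable_univ (fun a => (g a).2.2.2.1) (fun a => (g a).2.2.2.2)
      (fun a _ => (hg a).2.1) (fun a => e (g a).1)
  obtain ⟨a₀, ha₀⟩ := nonempty_of_not_countable hT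
  refine ⟨fun a => (g a).2.2.1, T \ Iic a₀, ?_, fun A => ?_⟩
  · intro hc
    apply hT
    refine (hc.union (Om.countable_Iic a₀)).mono ?_
    rw [diff_union_self]
    exact subset_union_left
  obtain ⟨y, hy1, hy2⟩ := glue hP (e (g a₀).1)
    (fun a => if a ∈ A then e (g a).2.1 else e (g a).1)
  refine ⟨fun f => (φ f).1 y, (continuous_eval_cp y).comp hφ, ?_⟩
  rintro a ⟨ha, hlt⟩
  have hlt' : a₀ < a := not_le.1 hlt
  have hroot : ∀ c ∈ R, |y c - e (g a).1 c| < (g a).2.2.2.2 := by
    intro c hc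
    rw [hy1 c hc]
    exact (close_on_root (hq a₀ ha₀).2 (hq a ha).2 (hx c hc)).trans_le (hq a ha).1
  constructor
  · intro haA
    refine (hg a).2.2.2 y fun c hc => ?_
    by_cases hcR : c ∈ R
    · rw [← (hg a).1 (g a₀) ⟨a₀, hlt', rfl⟩ c (hR a₀ ha₀ hcR)]
      exact hroot c hcR
    · rw [hy2 a ha c (Finset.mem_sdiff.2 ⟨hc, hcR⟩), if_pos haA]
      simpa using (hg a).2.1
  · intro haA
    refine (hg a).2.2.1 y fun c hc => ?_
    by_cases hcR : c ∈ R
    · exact hroot c hcR
    · rw [hy2 a ha c (Finset.mem_sdiff.2 ⟨hc, hcR⟩), if_neg haA]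
      simpa using (hg a).2.1

/-- Core theorem: a countably tight compact space t-embedded in a power of the line is
metrizable. -/
theorem metrizable_of_cTight {X κ : Type*} [TopologicalSpace X] [CompactSpace X] [T2Space X]
    {e : X → κ → ℝ} (hec : Continuous e) (he : IsTEmbedded e)
    (hT : CTight X) : TopologicalSpace.MetrizableSpace X := by
  classical
  by_contra hX
  obtain ⟨f, T, hTc, hsep⟩ := exists_separated_family hec he hX
  obtain ⟨A, hAT, hA, hno⟩ := exists_uncountable_no_trace (J := ℕ × ℕ × ℕ)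
    (fun j => Fin j.1 → X) (fun j => hT.pow j.1)
    (fun j β z => 1 / ((j.2.2 : ℝ) + 1) -
      dist (fun l => (f β).1 (z l)) (TopologicalSpace.denseSeq (Fin j.1 → ℝ) j.2.1))
    (fun j β => continuous_const.sub (Continuous.dist
      (continuous_pi fun l => (f β).2.comp (continuous_apply l)) continuous_const)) hTc
  obtain ⟨Ψ, hΨ, hΨA⟩ := hsep A
  have h1 : ∀ a, ∃ (B : Finset X) (δ : ℝ), 0 < δ ∧ (a ∈ A → ∀ g : Cp X,
      (∀ x ∈ B, |g.1 x - (f a).1 x| < δ) → 2 / 3 < Ψ g) := by
    intro a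
    by_cases ha : a ∈ A
    · obtain ⟨B, δ, hδ, h⟩ := cp_nhds (f := f a) (W := {g | 2 / 3 < Ψ g})
        ((isOpen_lt continuous_const hΨ).mem_nhds ((hΨA a (hAT ha)).1 ha))
      exact ⟨B, δ, hδ, fun _ => h⟩
    · exact ⟨∅, 1, one_pos, fun h => absurd h ha⟩
  choose B δ hδ hB using h1
  obtain ⟨A', hA'A, hA', R, -, hP, n, x, k, m, hx, -, hq⟩ :=
    refine_delta hA B δ (fun a _ => hδ a) (fun a => (f a).1)
  have hcount := hno (n, k, m) x (by
    rintro β ⟨hβT, hβ⟩
    by_contra hβA
    obtain ⟨G, η, hη, hG⟩ := cp_nhds (f := f β) (W := {g | Ψ g < 1 / 3})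
      ((isOpen_lt hΨ continuous_const).mem_nhds ((hΨA β hβT).2 hβA))
    obtain ⟨a, ha, hdis⟩ : ∃ a ∈ A', Disjoint (B a \ R) G := by
      by_contra hcon
      push Not at hcon
      apply hA'
      have hsub : A' ⊆ ⋃ c ∈ (G : Set X), {a | a ∈ A' ∧ c ∈ B a \ R} := by
        intro a ha
        obtain ⟨c, hc1, hc2⟩ := Finset.not_disjoint_iff.1 (hcon a ha)
        exact mem_biUnion hc2 ⟨ha, hc1⟩
      refine Set.Countable.mono hsub (G.countable_toSet.biUnion fun c _ => ?_)
      apply Set.Subsingleton.countable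
      intro a ha b hb
      by_contra hne
      exact Finset.disjoint_left.1 (hP ha.1 hb.1 hne) ha.2 hb.2
    obtain ⟨g, hg⟩ := interp ((G ∪ B a).finite_toSet)
      (fun z => if z ∈ B a \ R then (f a).1 z else (f β).1 z)
    have k1 : Ψ g < 1 / 3 := by
      refine hG g fun z hz => ?_
      rw [hg z (by simp [hz]), if_neg (Finset.disjoint_right.1 hdis hz)]
      simpa using hη
    have k2 : 2 / 3 < Ψ g := by
      refine hB a (hA'A ha) g fun z hz => ?_
      rw [hg z (by simp [hz])]
      by_cases hzR : z ∈ R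
      · rw [if_neg (fun h => (Finset.mem_sdiff.1 h).2 hzR)]
        exact (close_on_root (sub_pos.1 hβ) (hq a ha).2 (hx z hzR)).trans_le (hq a ha).1
      · rw [if_pos (Finset.mem_sdiff.2 ⟨hz, hzR⟩)]
        simpa using hδ a
    linarith)
  refine hA' (Set.Countable.mono ?_ hcount)
  intro a ha
  exact ⟨hAT (hA'A ha), sub_pos.2 (hq a ha).2⟩

end Pool.Agent.MP_160dec_gt

end

section

/-! t-extral spaces are compact; the main theorem. -/

namespace Pool.Agent.MP_160dec_gt

open Set Topology Filter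

universe u

/-- A continuous real function on the one-point compactification of a discrete space agrees with
its value at infinity off a countable set. -/
theorem countable_ne_infty {K : Type*} [TopologicalSpace K] [DiscreteTopology K]
    {g : OnePoint K → ℝ} (hg : Continuous g) :
    {k : K | g (k : OnePoint K) ≠ g OnePoint.infty}.Countable := by
  rw [OnePoint.continuous_iff_from_discrete] at hg
  have h1 : ∀ n : ℕ, {k : K | 1 / ((n : ℝ) + 1) ≤ dist (g (k : OnePoint K)) (g OnePoint.infty)}.Finite := by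
    intro n
    have := Metric.tendsto_nhds.1 hg _ (Nat.one_div_pos_of_nat (n := n))
    refine (eventually_cofinite.1 this).subset fun k hk => ?_
    simpa using hk
  refine (countable_iUnion fun n => (h1 n).countable).mono fun k hk => ?_
  obtain ⟨n, hn⟩ := exists_nat_one_div_lt (dist_pos.2 hk)
  exact mem_iUnion.2 ⟨n, hn.le⟩

theorem compactSpace_of_tExtral {X : Type u} [TopologicalSpace X] [T35Space X]
    (h : TExtral X) : CompactSpace X := by
  classical
  let K : Type u := Set (Cp X × X × ℕ)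
  letI : TopologicalSpace K := ⊥
  haveI : DiscreteTopology K := ⟨rfl⟩
  let u : X → StoneCech X := stoneCechUnit
  have hu : IsEmbedding u := isEmbedding_stoneCechUnit
  have hud : DenseRange u := denseRange_stoneCechUnit
  let Y : Type u := {p : StoneCech X × OnePoint K // p.2 = OnePoint.infty → p.1 ∈ range u}
  let e : X → Y := fun x => ⟨(u x, OnePoint.infty), fun _ => mem_range_self x⟩
  have hec : Continuous e := (hu.continuous.prodMk continuous_const).subtype_mk _
  have he : IsClosedEmbedding e := by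
    refine ⟨IsEmbedding.of_comp hec (continuous_fst.comp continuous_subtype_val) hu, ?_⟩
    have : range e = (fun p : Y => p.1.2) ⁻¹' {OnePoint.infty} := by
      ext p
      constructor
      · rintro ⟨x, rfl⟩
        rfl
      · intro hp
        obtain ⟨x, hx⟩ := p.2 hp
        refine ⟨x, Subtype.ext (Prod.ext hx ?_)⟩
        exact (mem_singleton_iff.1 hp).symm
    rw [this]
    exact OnePoint.isClosed_infty.preimage (continuous_snd.comp continuous_subtype_val)
  obtain ⟨φ, hφ, hφe⟩ := h Y e he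
  let col : X → OnePoint K → Y := fun x k => ⟨(u x, k), fun _ => mem_range_self x⟩
  have hcol : ∀ x, Continuous (col x) := fun x =>
    (continuous_const.prodMk continuous_id).subtype_mk _
  have hbad : ∀ (f : Cp X) (x : X), ∃ s : ℕ → K,
      ∀ k : K, (φ f).1 (col x k) ≠ f.1 x → k ∈ range s := by
    intro f x
    have h1 := countable_ne_infty ((φ f).2.comp (hcol x))
    obtain ⟨s, hs⟩ := (h1.insert (∅ : Set (Cp X × X × ℕ))).exists_eq_range (insert_nonempty _ _)
    refine ⟨s, fun k hk => ?_⟩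
    rw [← hs]
    refine mem_insert_of_mem _ ?_
    change (φ f).1 (col x k) ≠ (φ f).1 (e x)
    rwa [hφe]
  choose s hs using hbad
  obtain ⟨k, hk⟩ : ∃ k : K, ∀ w : Cp X × X × ℕ, s w.1 w.2.1 w.2.2 ≠ k := by
    by_contra hcon
    push Not at hcon
    exact Function.cantor_surjective (fun w : Cp X × X × ℕ => s w.1 w.2.1 w.2.2) hcon
  have hgood : ∀ (f : Cp X) (x : X), (φ f).1 (col x k) = f.1 x := by
    intro f x
    by_contra hne
    obtain ⟨n, hn⟩ := hs f x k hne
    exact hk (f, x, n) hn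
  let row : StoneCech X → Y := fun z => ⟨(z, (k : OnePoint K)),
    fun h => absurd h (OnePoint.coe_ne_infty k)⟩
  have hrow : Continuous row := (continuous_id.prodMk continuous_const).subtype_mk _
  have hext : ∀ (f : Cp X) (H : StoneCech X → ℝ), Continuous H → (∀ x, f.1 x = H (u x)) →
      ∀ z, (φ f).1 (row z) = H z := by
    intro f H hH hf z
    refine congrFun (hud.equalizer ((φ f).2.comp hrow) hH ?_) z
    funext x
    exact (hgood f x).trans (hf x)
  have hsurj : Function.Surjective u := by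
    intro z
    by_contra hz
    let zero : Cp X := ⟨fun _ => 0, continuous_const⟩
    have h0 : (φ zero).1 (row z) = 0 := hext zero (fun _ => 0) continuous_const (fun _ => rfl) z
    obtain ⟨B, δ, hδ, hB⟩ := cp_nhds (f := zero) (W := {f | (φ f).1 (row z) < 1})
      ((isOpen_lt ((continuous_eval_cp (row z)).comp hφ) continuous_const).mem_nhds (by
        change (φ zero).1 (row z) < 1
        rw [h0]; exact one_pos))
    obtain ⟨H, hH⟩ := interp (X := StoneCech X) ((B.finite_toSet.image u).insert z)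
      (fun w => if w = z then (1 : ℝ) else 0)
    let f : Cp X := ⟨fun x => H.1 (u x), H.2.comp hu.continuous⟩
    have h1 : (φ f).1 (row z) = 1 := by
      rw [hext f H.1 H.2 (fun _ => rfl) z, hH z (mem_insert _ _), if_pos rfl]
    have h2 : (φ f).1 (row z) < 1 := by
      refine hB f fun x hx => ?_
      have : f.1 x = 0 := by
        change H.1 (u x) = 0
        rw [hH (u x) (mem_insert_of_mem _ ⟨x, hx, rfl⟩), if_neg fun h => hz ⟨x, h⟩]
      rw [this]
      simpa [zero] using hδ
    exact h2.ne h1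
  constructor
  rw [hu.isCompact_iff, image_univ, hsurj.range_eq]
  exact isCompact_univ

theorem metrizable_of_tExtral_tExtendial (X : Type u) [TopologicalSpace X] [T35Space X]
    (h₁ : TExtral X) (h₂ : TExtendial X) : TopologicalSpace.MetrizableSpace X := by
  haveI := compactSpace_of_tExtral h₁
  let e : X → Cp X → ℝ := fun x f => f.1 x
  have hec : Continuous e := continuous_pi fun f => f.2
  have hei : Function.Injective e := by
    intro x y hxy
    by_contra hne
    obtain ⟨f, hf, hf'⟩ := separatesPoints_continuous_of_t35Space hne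
    exact hf' (congrFun hxy ⟨f, hf⟩)
  have he : IsTEmbedded e := h₁ (Cp X → ℝ) e (hec.isClosedEmbedding hei)
  exact metrizable_of_cTight hec he (cTight_of_hereditary he h₂)

end Pool.Agent.MP_160dec_gt

end
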